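import Mathlib

/-!
# FAM-E3: norms of a finite dimensional space
-/

namespace Pool.Agent.Helper33.FAM

open Polynomial

universe u

/-- elements of a k-span of elements of an `F`-subalgebra -/
theorem span_le_sub {k F Ω : Type u} [Field k] [Field F] [Field Ω] [Algebra k F] [Algebra F Ω]
    [Algebra k Ω] [IsScalarTower k F Ω] (A : Subalgebra F Ω) (S : Set Ω)
    (hS : ∀ a ∈ S, a ∈ A) : ∀ a ∈ Submodule.span k S, a ∈ A := by
  intro a ha
  induction ha using Submodule.span_induction with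
  | mem x hx => exact hS x hx
  | zero => exact A.zero_mem
  | add x y _ _ hx hy => exact A.add_mem hx hy
  | smul c x _ hx =>
    rw [← IsScalarTower.algebraMap_smul F c x]
    exact A.smul_mem hx _

theorem mul_le_sub {k F Ω : Type u} [Field k] [Field F] [Field Ω] [Algebra k F] [Algebra F Ω]
    [Algebra k Ω] [IsScalarTower k F Ω] (A : Subalgebra F Ω) (V W : Submodule k Ω)
    (hV : ∀ a ∈ V, a ∈ A) (hW : ∀ a ∈ W, a ∈ A) : ∀ a ∈ V * W, a ∈ A := by
  intro a ha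
  induction ha using Submodule.mul_induction_on' with
  | mem_mul_mem m hm n hn => exact A.mul_mem (hV m hm) (hW n hn)
  | add x _ y _ hx hy => exact A.add_mem hx hy

/-- one step: adjoining a square root -/
theorem norm_step {k F Ω : Type u} [Field k] [Field F] [Field Ω] [Algebra k F] [Algebra F Ω]
    [Algebra k Ω] [IsScalarTower k F Ω] (A B : Subalgebra F Ω) (hAB : A ≤ B) (w : Ω)
    (hwB : w ∈ B) (hw : w ^ 2 ∈ A) (hB : ∀ a ∈ B, ∃ a0 ∈ A, ∃ a1 ∈ A, a = a0 + a1 * w)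
    (W : Submodule k Ω) (hW : W.FG) (hWO : ∀ a ∈ W, a ∈ B) :
    ∃ V : Submodule k Ω, V.FG ∧ (∀ a ∈ V, a ∈ A) ∧ ∀ a ∈ W, a ≠ 0 →
      ∃ g ∈ V, g ≠ 0 ∧ ∃ b ∈ B, a * b = g := by
  by_cases hd : ∃ d ∈ A, d ≠ 0 ∧ d * w ∈ A
  · obtain ⟨d, hdA, hd0, hdw⟩ := hd
    refine ⟨W * Submodule.span k {d}, hW.mul (Submodule.fg_span_singleton d), ?_, ?_⟩
    · intro a ha
      rw [Submodule.mem_mul_span_singleton] at ha
      obtain ⟨y, hy, rfl⟩ := ha
      obtain ⟨a0, h0, a1, h1, rfl⟩ := hB y (hWO y hy)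
      have : (a0 + a1 * w) * d = a0 * d + a1 * (d * w) := by ring
      rw [this]
      exact A.add_mem (A.mul_mem h0 hdA) (A.mul_mem h1 hdw)
    · intro a ha ha0
      exact ⟨a * d, Submodule.mul_mem_mul ha (Submodule.mem_span_singleton_self d),
        mul_ne_zero ha0 hd0, d, hAB hdA, rfl⟩
  · push Not at hd
    obtain ⟨m, s, hs⟩ := Submodule.fg_iff_exists_fin_generating_family.1 hW
    have hsB : ∀ i, s i ∈ B := fun i => hWO _ (hs ▸ Submodule.subset_span ⟨i, rfl⟩)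
    choose a0 h0 a1 h1 h01 using fun i => hB (s i) (hsB i)
    set V0 : Submodule k Ω := Submodule.span k (Set.range a0) with hV0
    set V1 : Submodule k Ω := Submodule.span k (Set.range a1) with hV1
    have hfg0 : V0.FG := Submodule.fg_span (Set.finite_range a0)
    have hfg1 : V1.FG := Submodule.fg_span (Set.finite_range a1)
    have hA0 : ∀ a ∈ V0, a ∈ A := span_le_sub A _ (by rintro _ ⟨i, rfl⟩; exact h0 i)
    have hA1 : ∀ a ∈ V1, a ∈ A := span_le_sub A _ (by rintro _ ⟨i, rfl⟩; exact h1 i)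
    have hAw : ∀ a ∈ Submodule.span k {w ^ 2}, a ∈ A :=
      span_le_sub A _ (by rintro _ rfl; exact hw)
    refine ⟨V0 * V0 ⊔ V1 * V1 * Submodule.span k {w ^ 2},
      (hfg0.mul hfg0).sup ((hfg1.mul hfg1).mul (Submodule.fg_span_singleton _)), ?_, ?_⟩
    · intro a ha
      obtain ⟨y, hy, z, hz, rfl⟩ := Submodule.mem_sup.1 ha
      exact A.add_mem (mul_le_sub A _ _ hA0 hA0 y hy)
        (mul_le_sub A _ _ (mul_le_sub A _ _ hA1 hA1) hAw z hz)
    · intro a ha hane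
      rw [← hs, Submodule.mem_span_range_iff_exists_fun] at ha
      obtain ⟨c, hc⟩ := ha
      set b0 : Ω := ∑ i, c i • a0 i with hb0
      set b1 : Ω := ∑ i, c i • a1 i with hb1
      have hm0 : b0 ∈ V0 := (Submodule.mem_span_range_iff_exists_fun k).2 ⟨c, rfl⟩
      have hm1 : b1 ∈ V1 := (Submodule.mem_span_range_iff_exists_fun k).2 ⟨c, rfl⟩
      have hab : a = b0 + b1 * w := by
        rw [← hc, hb0, hb1, Finset.sum_mul, ← Finset.sum_add_distrib]
        refine Finset.sum_congr rfl fun i _ => ?_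
        rw [h01 i, smul_add, smul_mul_assoc]
      refine ⟨b0 * b0 + -(b1 * b1 * w ^ 2), ?_, ?_, b0 - b1 * w, ?_, ?_⟩
      · refine Submodule.add_mem_sup (Submodule.mul_mem_mul hm0 hm0) (Submodule.neg_mem _ ?_)
        exact Submodule.mul_mem_mul (Submodule.mul_mem_mul hm1 hm1)
          (Submodule.mem_span_singleton_self _)
      · have hfac : b0 * b0 + -(b1 * b1 * w ^ 2) = (b0 + b1 * w) * (b0 - b1 * w) := by ring
        rw [hfac]
        refine mul_ne_zero (hab ▸ hane) fun h => ?_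
        have h2 : b1 * w = b0 := (sub_eq_zero.1 h).symm
        by_cases hb : b1 = 0
        · apply hane
          rw [hab, h2.symm, hb]
          ring
        · exact hd b1 (hA1 _ hm1) hb (h2 ▸ hA0 _ hm0)
      · exact B.sub_mem (hAB (hA0 _ hm0)) (B.mul_mem (hAB (hA1 _ hm1)) hwB)
      · rw [hab]; ring

theorem decomp {F Ω : Type u} [Field F] [Field Ω] [Algebra F Ω] (X : Set Ω) (w : Ω)
    (hw : w ^ 2 ∈ Algebra.adjoin F X) :
    ∀ a ∈ Algebra.adjoin F (insert w X), ∃ a0 ∈ Algebra.adjoin F X,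
      ∃ a1 ∈ Algebra.adjoin F X, a = a0 + a1 * w := by
  intro a ha
  induction ha using Algebra.adjoin_induction with
  | mem x hx =>
    rcases hx with rfl | hx
    · exact ⟨0, zero_mem _, 1, one_mem _, by ring⟩
    · exact ⟨x, Algebra.subset_adjoin hx, 0, zero_mem _, by ring⟩
  | algebraMap r => exact ⟨_, Subalgebra.algebraMap_mem _ r, 0, zero_mem _, by ring⟩
  | add x y _ _ hx hy =>
    obtain ⟨x0, hx0, x1, hx1, rfl⟩ := hx
    obtain ⟨y0, hy0, y1, hy1, rfl⟩ := hy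
    exact ⟨x0 + y0, add_mem hx0 hy0, x1 + y1, add_mem hx1 hy1, by ring⟩
  | mul x y _ _ hx hy =>
    obtain ⟨x0, hx0, x1, hx1, rfl⟩ := hx
    obtain ⟨y0, hy0, y1, hy1, rfl⟩ := hy
    exact ⟨x0 * y0 + x1 * y1 * w ^ 2,
      add_mem (mul_mem hx0 hy0) (mul_mem (mul_mem hx1 hy1) hw),
      x0 * y1 + x1 * y0, add_mem (mul_mem hx0 hy1) (mul_mem hx1 hy0), by ring⟩

theorem norm_ind {k F Ω : Type u} [Field k] [Field F] [Field Ω] [Algebra k F] [Algebra F Ω]
    [Algebra k Ω] [IsScalarTower k F Ω] (X S : Set Ω) (hS : S.Finite)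
    (hw : ∀ w ∈ S, w ^ 2 ∈ Algebra.adjoin F X) :
    ∀ (W : Submodule k Ω), W.FG → (∀ a ∈ W, a ∈ Algebra.adjoin F (X ∪ S)) →
    ∃ V : Submodule k Ω, V.FG ∧ (∀ a ∈ V, a ∈ Algebra.adjoin F X) ∧ ∀ a ∈ W, a ≠ 0 →
      ∃ g ∈ V, g ≠ 0 ∧ ∃ b ∈ Algebra.adjoin F (X ∪ S), a * b = g := by
  induction S, hS using Set.Finite.induction_on with
  | empty =>
    intro W hW hWO
    rw [Set.union_empty] at hWO ⊢
    exact ⟨W, hW, hWO, fun a ha h0 => ⟨a, ha, h0, 1, one_mem _, mul_one a⟩⟩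
  | @insert w S _ _ ih =>
    intro W hW hWO
    have hX : X ∪ insert w S = insert w (X ∪ S) := Set.union_insert
    rw [hX] at hWO ⊢
    have hXS : Algebra.adjoin F X ≤ Algebra.adjoin F (X ∪ S) :=
      Algebra.adjoin_mono Set.subset_union_left
    have hXS' : Algebra.adjoin F (X ∪ S) ≤ Algebra.adjoin F (insert w (X ∪ S)) :=
      Algebra.adjoin_mono (Set.subset_insert _ _)
    have hw2 : w ^ 2 ∈ Algebra.adjoin F (X ∪ S) := hXS (hw w (Set.mem_insert _ _))
    obtain ⟨V1, hV1, hV1A, h1⟩ := norm_step (k := k) _ _ hXS' w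
      (Algebra.subset_adjoin (Set.mem_insert _ _)) hw2 (decomp (X ∪ S) w hw2) W hW hWO
    obtain ⟨V2, hV2, hV2A, h2⟩ := ih (fun v hv => hw v (Set.mem_insert_of_mem _ hv)) V1 hV1 hV1A
    refine ⟨V2, hV2, hV2A, fun a ha h0 => ?_⟩
    obtain ⟨g, hg, hg0, b, hb, hab⟩ := h1 a ha h0
    obtain ⟨g', hg', hg0', b', hb', hab'⟩ := h2 g hg hg0
    exact ⟨g', hg', hg0', b * b', mul_mem hb (hXS' hb'), by rw [← mul_assoc, hab, hab']⟩

/-- E3: norms of a finite dimensional space. -/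
theorem exists_norm {k F Ω : Type u} [Field k] [Field F] [Field Ω] [Algebra k F] [Algebra F Ω]
    [Algebra k Ω] [IsScalarTower k F Ω] {n s : ℕ}
    (x : Fin n → Ω) (w : Fin s → Ω) (Φ : Fin s → MvPolynomial (Fin n) F)
    (hx : AlgebraicIndependent F x) (hw : ∀ j, w j ^ 2 = MvPolynomial.aeval x (Φ j))
    (W : Submodule k Ω) (hW : W.FG)
    (hWO : ∀ a ∈ W, a ∈ Algebra.adjoin F (Set.range x ∪ Set.range w)) :
    ∃ V : Submodule k (MvPolynomial (Fin n) F), V.FG ∧ ∀ a ∈ W, a ≠ 0 → ∃ g ∈ V, g ≠ 0 ∧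
      ∃ b ∈ Algebra.adjoin F (Set.range x ∪ Set.range w), a * b = MvPolynomial.aeval x g := by
  have hr : Algebra.adjoin F (Set.range x) = (MvPolynomial.aeval x : _ →ₐ[F] Ω).range :=
    Algebra.adjoin_range_eq_range_aeval F x
  obtain ⟨V, hV, hVA, h⟩ := norm_ind (k := k) (F := F) (Set.range x) (Set.range w)
    (Set.finite_range w) (by
      rintro _ ⟨j, rfl⟩
      rw [hr, hw j]
      exact ⟨_, rfl⟩) W hW hWO
  let f : MvPolynomial (Fin n) F →ₗ[k] Ω :=
    (MvPolynomial.aeval x : MvPolynomial (Fin n) F →ₐ[F] Ω).toLinearMap.restrictScalars k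
  have hfi : Function.Injective f := hx
  have hmap : (V.comap f).map f = V := by
    rw [Submodule.map_comap_eq, inf_eq_right]
    intro a ha
    have := hVA a ha
    rw [hr] at this
    obtain ⟨p, hp⟩ := this
    exact ⟨p, hp⟩
  refine ⟨V.comap f, Submodule.fg_of_fg_map_injective f hfi (hmap.symm ▸ hV), ?_⟩
  intro a ha h0
  obtain ⟨g, hg, hg0, b, hb, hab⟩ := h a ha h0
  rw [← hmap] at hg
  obtain ⟨p, hp, hpg⟩ := hg
  refine ⟨p, hp, ?_, b, hb, ?_⟩
  · rintro rfl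
    apply hg0
    rw [← hpg, map_zero]
  · rw [hab, ← hpg]
    rfl

end Pool.Agent.Helper33.FAM
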